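import Mathlib
import Pool.Agent.TH138.NF.End

set_option autoImplicit false

/-!
Erdős–Rado theorem for colourings of increasing tuples with finitely many colours.
-/

namespace Pool.Agent.X27.Poly

open Finset Pool.Agent.TH138.NF

/-- The bound for the uniformity `u + 1`. -/
def M (l n : ℕ) : ℕ → ℕ
  | 0 => l * n
  | u + 1 => (2 * l ^ ((u + 1) * (M l n u) ^ u)) ^ (M l n u)

theorem er {Λ : Type} [Fintype Λ] [DecidableEq Λ] [Nonempty Λ] (n : ℕ) :
    ∀ (u : ℕ) (L : (Fin (u + 1) → ℕ) → Λ) (V : Finset ℕ), M (Fintype.card Λ) n u ≤ V.card →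
      ∃ S ⊆ V, S.card = n ∧ ∀ x y : Fin (u + 1) → ℕ, StrictMono x → StrictMono y →
        (∀ i, x i ∈ S) → (∀ i, y i ∈ S) → L x = L y := by
  intro u
  induction u with
  | zero =>
    intro L V hV
    change Fintype.card Λ * n ≤ V.card at hV
    obtain ⟨y, _, hy⟩ := Finset.exists_le_card_fiber_of_mul_le_card_of_maps_to
      (s := V) (t := (Finset.univ : Finset Λ)) (f := fun v => L (fun _ => v)) (n := n)
      (fun _ _ => Finset.mem_univ _) Finset.univ_nonempty (by rwa [Finset.card_univ])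
    obtain ⟨S, hS, hSc⟩ := Finset.exists_subset_card_eq hy
    refine ⟨S, hS.trans (Finset.filter_subset _ _), hSc, fun x z _ _ hx hz => ?_⟩
    have e1 : ∀ w : Fin (0 + 1) → ℕ, w = fun _ => w 0 := fun w => by
      funext i; congr 1; exact Fin.fin_one_eq_zero i
    have h1 := (Finset.mem_filter.1 (hS (hx 0))).2
    have h2 := (Finset.mem_filter.1 (hS (hz 0))).2
    rw [e1 x, e1 z]
    exact h1.trans h2.symm
  | succ s ih =>
    intro L V hV
    set k := M (Fintype.card Λ) n s with hk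
    obtain ⟨v, W, hWV, hWc, hvV, hvm, hvW, -, h2⟩ := end_hom L V k
      (2 * Fintype.card Λ ^ ((s + 1) * k ^ s)) rfl hV k le_rfl
    have hWne : W.Nonempty := by
      rw [← card_pos]
      refine lt_of_lt_of_le ?_ hWc
      have := Fintype.card_pos (α := Λ)
      positivity
    obtain ⟨w, hw⟩ := hWne
    obtain ⟨S', hS', hc', hh⟩ := ih (fun i => L (Fin.snoc (fun a => v (i a)) w)) (range k)
      (by rw [card_range])
    have hinj : Set.InjOn v (range k : Finset ℕ) := by
      intro i hi j hj hij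
      rw [coe_range, Set.mem_Iio] at hi hj
      rcases lt_trichotomy i j with h | h | h
      · exact absurd hij (hvm i j h hj).ne
      · exact h
      · exact absurd hij (hvm j i h hi).ne'
    refine ⟨S'.image v, ?_, ?_, ?_⟩
    · intro u hu
      obtain ⟨i, hi, rfl⟩ := mem_image.1 hu
      exact hvV i (mem_range.1 (hS' hi))
    · rw [card_image_of_injOn (hinj.mono (by exact_mod_cast hS')), hc']
    · have key : ∀ x : Fin (s + 2) → ℕ, StrictMono x → (∀ a, x a ∈ S'.image v) →
          ∃ i : Fin (s + 1) → ℕ, StrictMono i ∧ (∀ a, i a ∈ S') ∧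
            L x = L (Fin.snoc (fun a => v (i a)) w) := by
        intro x hx hxS
        have hch : ∀ a, ∃ i ∈ S', v i = x a := fun a => by
          simpa using mem_image.1 (hxS a)
        choose i hi hvi using hch
        have him : StrictMono i := by
          intro a a' haa'
          by_contra hle
          push Not at hle
          have h3 := hx haa'
          rw [← hvi a, ← hvi a'] at h3
          rcases Nat.lt_or_eq_of_le hle with h | h
          · exact absurd (hvm _ _ h (mem_range.1 (hS' (hi a)))) (not_lt.2 h3.le)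
          · rw [h] at h3; exact lt_irrefl _ h3
        refine ⟨fun a => i a.castSucc, fun a a' h => him (by simpa using h),
          fun a => hi _, ?_⟩
        have hxe : x = Fin.snoc (fun a => v (i (Fin.castSucc a))) (v (i (Fin.last _))) := by
          funext a
          induction a using Fin.lastCases with
          | last => rw [Fin.snoc_last, hvi]
          | cast a => rw [Fin.snoc_castSucc, hvi]
        rw [hxe]
        exact h2 (fun a => i a.castSucc) (i (Fin.last _)) (mem_range.1 (hS' (hi _)))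
          (fun a => him (Fin.castSucc_lt_last a)) w hw
      intro x y hx hy hxS hyS
      obtain ⟨i, hi1, hi2, hi3⟩ := key x hx hxS
      obtain ⟨i', hi1', hi2', hi3'⟩ := key y hy hyS
      rw [hi3, hi3']
      exact hh i i' hi1 hi1' hi2 hi2'

theorem le_tow' (k : ℕ) (x : ℝ) : x ≤ tow k x := by
  induction k with
  | zero => exact le_rfl
  | succ k ih =>
    refine ih.trans ?_
    change tow k x ≤ 2 ^ tow k x
    rcases le_or_gt (tow k x) 0 with h | h
    · exact h.trans (Real.rpow_nonneg (by norm_num) _)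
    · have h1 := Real.add_one_le_exp (tow k x * Real.log 2)
      have h2 : (2 : ℝ) ^ tow k x = Real.exp (tow k x * Real.log 2) := by
        rw [Real.rpow_def_of_pos (by norm_num)]; ring_nf
      -- `2 ^ y ≥ 1 + y / 2 + ...`
      have h3 : tow k x ≤ 2 ^ tow k x := by
        have h4 : tow k x < ⌊tow k x⌋₊ + 1 := Nat.lt_floor_add_one _
        have h5 : (⌊tow k x⌋₊ : ℝ) ≤ tow k x := Nat.floor_le h.le
        have h6 : ⌊tow k x⌋₊ + 1 ≤ 2 ^ ⌊tow k x⌋₊ := Nat.lt_two_pow_self
        have h7 : ((⌊tow k x⌋₊ : ℝ) + 1) ≤ (2 : ℝ) ^ (⌊tow k x⌋₊ : ℝ) := by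
          rw [Real.rpow_natCast]; exact_mod_cast h6
        have h8 : (2 : ℝ) ^ (⌊tow k x⌋₊ : ℝ) ≤ 2 ^ tow k x :=
          Real.rpow_le_rpow_of_exponent_le (by norm_num) h5
        linarith
      exact h3

theorem mul_tow (c : ℕ) (hc : 1 ≤ c) : ∀ (k : ℕ) (x : ℝ), 1 ≤ x → (c : ℝ) * tow k x ≤ tow k (c * x) := by
  intro k
  induction k with
  | zero => intro x _; exact le_rfl
  | succ k ih =>
    intro x hx
    have h1 := ih x hx
    have h2 : 1 ≤ tow k x := hx.trans (le_tow' k x)
    have hc' : (1 : ℝ) ≤ c := by exact_mod_cast hc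
    have h3 : (c : ℝ) ≤ 2 ^ ((c : ℝ) - 1) := by
      obtain ⟨b, rfl⟩ : ∃ b, c = b + 1 := ⟨c - 1, by omega⟩
      have : b + 1 ≤ 2 ^ b := Nat.lt_two_pow_self
      rw [show (((b + 1 : ℕ) : ℝ) - 1) = (b : ℝ) by push_cast; ring, Real.rpow_natCast]
      exact_mod_cast this
    change (c : ℝ) * 2 ^ tow k x ≤ 2 ^ tow k (c * x)
    calc (c : ℝ) * 2 ^ tow k x ≤ 2 ^ ((c : ℝ) - 1) * 2 ^ tow k x := by gcongr
      _ = 2 ^ ((c : ℝ) - 1 + tow k x) := by rw [Real.rpow_add (by norm_num)]
      _ ≤ 2 ^ tow k (c * x) := by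
        apply Real.rpow_le_rpow_of_exponent_le (by norm_num)
        nlinarith

theorem M_pos (l n : ℕ) (hl : 1 ≤ l) (hn : 1 ≤ n) : ∀ u, 1 ≤ M l n u := by
  intro u
  induction u with
  | zero => exact Nat.mul_pos hl hn
  | succ u ih =>
    change 1 ≤ (2 * l ^ ((u + 1) * (M l n u) ^ u)) ^ (M l n u)
    apply Nat.one_le_pow
    have : 1 ≤ l ^ ((u + 1) * (M l n u) ^ u) := Nat.one_le_pow _ _ hl
    omega

theorem M_le (l : ℕ) (hl : 1 ≤ l) : ∀ u : ℕ, ∃ C : ℕ, 1 ≤ C ∧ ∀ n : ℕ, 1 ≤ n →
    (M l n (u + 1) : ℝ) ≤ tow (u + 1) (C * n) := by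
  intro u
  induction u with
  | zero =>
    refine ⟨l * l, Nat.mul_pos hl hl, fun n hn => ?_⟩
    have h1 : M l n (0 + 1) = (2 * l) ^ (l * n) := by
      simp [M]
    have h2 : 2 * l ≤ 2 ^ l := by
      obtain ⟨b, rfl⟩ : ∃ b, l = b + 1 := ⟨l - 1, by omega⟩
      have : b + 1 ≤ 2 ^ b := Nat.lt_two_pow_self
      rw [pow_succ]; omega
    have h3 : M l n (0 + 1) ≤ 2 ^ (l * l * n) := by
      rw [h1]
      calc (2 * l) ^ (l * n) ≤ (2 ^ l) ^ (l * n) := Nat.pow_le_pow_left h2 _
        _ = 2 ^ (l * l * n) := by rw [← pow_mul, mul_assoc]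
    change (M l n (0 + 1) : ℝ) ≤ 2 ^ (((l * l : ℕ) : ℝ) * n)
    have h4 : ((l * l : ℕ) : ℝ) * n = ((l * l * n : ℕ) : ℝ) := by push_cast; ring
    rw [h4, Real.rpow_natCast]
    exact_mod_cast h3
  | succ u ih =>
    obtain ⟨C, hC, H⟩ := ih
    set c : ℕ := 1 + l * (u + 2) with hc
    refine ⟨(c + (u + 2)) * C, Nat.mul_pos (by omega) hC, fun n hn => ?_⟩
    set m := M l n (u + 1) with hm
    have hm1 : 1 ≤ m := M_pos l n hl hn _
    have h1 : M l n (u + 1 + 1) ≤ 2 ^ (c * m ^ (u + 2)) := by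
      change (2 * l ^ ((u + 1 + 1) * m ^ (u + 1))) ^ m ≤ _
      have h2 : l ≤ 2 ^ l := Nat.lt_two_pow_self.le
      calc (2 * l ^ ((u + 1 + 1) * m ^ (u + 1))) ^ m
          ≤ (2 * (2 ^ l) ^ ((u + 1 + 1) * m ^ (u + 1))) ^ m := by gcongr
        _ = 2 ^ ((1 + l * ((u + 1 + 1) * m ^ (u + 1))) * m) := by
            rw [← pow_mul, ← pow_succ', ← pow_mul]; ring_nf
        _ ≤ 2 ^ (c * m ^ (u + 2)) := by
            apply Nat.pow_le_pow_right (by norm_num)
            rw [hc]
            have h3 : m ^ (u + 2) = m ^ (u + 1) * m := pow_succ _ _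
            have h4 : m ≤ m ^ (u + 2) := Nat.le_self_pow (by omega) m
            rw [h3] at h4 ⊢
            nlinarith
    set t : ℝ := tow u (C * n) with ht
    have hx1 : (1 : ℝ) ≤ (C : ℝ) * n := by
      have : 1 ≤ C * n := Nat.mul_pos hC hn
      exact_mod_cast this
    have ht1 : 1 ≤ t := hx1.trans (le_tow' u _)
    have hmt : (m : ℝ) ≤ 2 ^ t := H n hn
    have h5 : ((c * m ^ (u + 2) : ℕ) : ℝ) ≤ tow (u + 1) (((c + (u + 2)) * C : ℕ) * n) := by
      push_cast
      calc (c : ℝ) * (m : ℝ) ^ (u + 2) ≤ 2 ^ (c : ℝ) * ((2 : ℝ) ^ t) ^ (u + 2) := by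
            have h6 : (c : ℝ) ≤ 2 ^ (c : ℝ) := by
              rw [Real.rpow_natCast]
              exact_mod_cast (Nat.lt_two_pow_self (n := c)).le
            gcongr
        _ = 2 ^ ((c : ℝ) + (u + 2) * t) := by
            rw [← Real.rpow_natCast ((2 : ℝ) ^ t), ← Real.rpow_mul (by norm_num),
              ← Real.rpow_add (by norm_num)]
            congr 1
            push_cast
            ring
        _ ≤ 2 ^ (((c + (u + 2) : ℕ) : ℝ) * t) := by
            apply Real.rpow_le_rpow_of_exponent_le (by norm_num)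
            push_cast
            have : (0 : ℝ) ≤ c := by positivity
            nlinarith
        _ ≤ 2 ^ tow u (((c + (u + 2) : ℕ) : ℝ) * (C * n)) := by
            apply Real.rpow_le_rpow_of_exponent_le (by norm_num)
            exact mul_tow (c + (u + 2)) (by omega) u _ hx1
        _ = tow (u + 1) (((c : ℝ) + (u + 2)) * C * n) := by
            change _ = (2 : ℝ) ^ tow u (((c : ℝ) + (u + 2)) * C * n)
            congr 2
            push_cast
            ring
    change (M l n (u + 1 + 1) : ℝ) ≤ 2 ^ tow (u + 1) (((c + (u + 2)) * C : ℕ) * n)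
    calc (M l n (u + 1 + 1) : ℝ) ≤ ((2 ^ (c * m ^ (u + 2)) : ℕ) : ℝ) := by exact_mod_cast h1
      _ = 2 ^ ((c * m ^ (u + 2) : ℕ) : ℝ) := by rw [Real.rpow_natCast]; push_cast; rfl
      _ ≤ _ := Real.rpow_le_rpow_of_exponent_le (by norm_num) h5

end Pool.Agent.X27.Poly
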