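import Mathlib
import Pool.Agent.X27.Poly.ER

set_option autoImplicit false

/-!
Relations preserved by near unanimity, Mal'cev or semilattice operations, and homogeneous sets.
-/

namespace Pool.Agent.X27.Poly

open Finset Pool.Agent.TH138.NF

/-- `f` applied coordinatewise to `k` tuples of `R` gives a tuple of `R`. -/
def Preserves {V : Type} {k r : ℕ} (f : (Fin k → V) → V) (R : Set (Fin r → V)) : Prop :=
  ∀ t : Fin k → (Fin r → V), (∀ a, t a ∈ R) → (fun i => f (fun a => t a i)) ∈ R

/-- Mal'cev operation. -/
def IsMalcev {V : Type} (f : (Fin 3 → V) → V) : Prop :=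
  ∀ x y, f ![x, y, y] = x ∧ f ![y, y, x] = x

/-- Near unanimity operation. -/
def IsNU {V : Type} {k : ℕ} (f : (Fin k → V) → V) : Prop :=
  ∀ a x y, f (Function.update (fun _ => x) a y) = x

/-- Semilattice operation. -/
def IsSemilattice {V : Type} (f : (Fin 2 → V) → V) : Prop :=
  (∀ x, f ![x, x] = x) ∧ (∀ x y, f ![x, y] = f ![y, x]) ∧
    ∀ x y z, f ![f ![x, y], z] = f ![x, f ![y, z]]

/-- Baker–Pixley. -/
theorem baker_pixley {V : Type} {d r : ℕ} (R : Set (Fin r → V)) (f : (Fin (d + 1) → V) → V)
    (hf : IsNU f) (hR : Preserves f R) (x : Fin r → V)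
    (hx : ∀ D : Finset (Fin r), D.card ≤ d → ∃ t ∈ R, ∀ i ∈ D, t i = x i) :
    ∀ E : Finset (Fin r), ∃ t ∈ R, ∀ i ∈ E, t i = x i := by
  intro E
  induction hE : E.card using Nat.strong_induction_on generalizing E with
  | _ e ih =>
    by_cases he : e ≤ d
    · exact hx E (by omega)
    · -- `d + 1` different elements
      have hcard : d + 1 ≤ E.card := by omega
      obtain ⟨E', hE', hE'c⟩ := Finset.exists_subset_card_eq hcard
      set j : Fin (d + 1) → Fin r := fun a => (E'.orderEmbOfFin hE'c a) with hj
      have hjinj : Function.Injective j := (E'.orderEmbOfFin hE'c).injective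
      have hjE : ∀ a, j a ∈ E := fun a => hE' (Finset.orderEmbOfFin_mem _ _ _)
      have hex : ∀ a, ∃ t ∈ R, ∀ i ∈ E.erase (j a), t i = x i := by
        intro a
        refine ih (E.erase (j a)).card ?_ (E.erase (j a)) rfl
        rw [Finset.card_erase_of_mem (hjE a)]
        omega
      choose t htR ht using hex
      refine ⟨fun i => f (fun a => t a i), hR t htR, fun i hi => ?_⟩
      by_cases hij : ∃ a, j a = i
      · obtain ⟨a, ha⟩ := hij
        have h1 : (fun b => t b i) = Function.update (fun _ => x i) a (t a i) := by
          funext b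
          by_cases hb : b = a
          · subst hb; rw [Function.update_self]
          · rw [Function.update_of_ne hb]
            refine ht b i (Finset.mem_erase.2 ⟨?_, hi⟩)
            intro h
            exact hb (hjinj (h ▸ ha.symm ▸ rfl))
        change f (fun b => t b i) = x i
        rw [h1]; exact hf a (x i) (t a i)
      · push Not at hij
        have h1 : (fun b => t b i) = Function.update (fun _ => x i) 0 (x i) := by
          funext b
          rw [Function.update_eq_self_iff.2 rfl]
          exact ht b i (Finset.mem_erase.2 ⟨fun h => hij b h.symm, hi⟩)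
        change f (fun b => t b i) = x i
        rw [h1]; exact hf 0 (x i) (x i)

/-- Simultaneously homogeneous. -/
def Hom {N r : ℕ} {m : ℕ} (R : Fin m → Set (Fin r → Fin N)) (S : Finset (Fin N)) : Prop :=
  ∀ x y : Fin r → Fin N, StrictMono x → StrictMono y → (∀ i, x i ∈ S) → (∀ i, y i ∈ S) →
    ∀ j, x ∈ R j ↔ y ∈ R j

/-- The upper bound for near unanimity operations of arity `d + 1 = u + 2`. -/
theorem nu_upper (r m u : ℕ) (hu : u + 1 ≤ r) : ∃ l : ℕ, 1 ≤ l ∧ ∀ n N : ℕ, M l n u ≤ N →
    ∀ R : Fin m → Set (Fin r → Fin N),
      (∀ j, ∃ f : (Fin (u + 2) → Fin N) → Fin N, IsNU f ∧ Preserves f (R j)) →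
      ∃ S : Finset (Fin N), S.card = n ∧ Hom R S := by
  classical
  refine ⟨Fintype.card (Fin m → (Fin (u + 1) ↪o Fin r) → Bool), Fintype.card_pos, ?_⟩
  intro n N hN R hR
  set L : (Fin (u + 1) → ℕ) → (Fin m → (Fin (u + 1) ↪o Fin r) → Bool) := fun y j e =>
    decide (∃ t ∈ R j, ∀ a, ((t (e a) : Fin N) : ℕ) = y a) with hL
  obtain ⟨S0, hS0, hS0c, hS0h⟩ := er n u L (range N) (by rw [card_range]; exact hN)
  set S : Finset (Fin N) := Finset.univ.filter (fun v => (v : ℕ) ∈ S0) with hS
  have hSc : S.card = n := by
    rw [← hS0c]
    refine Finset.card_bij (fun v _ => (v : ℕ)) ?_ ?_ ?_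
    · intro v hv; exact (Finset.mem_filter.1 hv).2
    · intro v _ w _ h; exact Fin.ext h
    · intro b hb
      exact ⟨⟨b, mem_range.1 (hS0 hb)⟩, Finset.mem_filter.2 ⟨Finset.mem_univ _, hb⟩, rfl⟩
  refine ⟨S, hSc, ?_⟩
  -- a tuple in `S` is in `R j` iff all its parts are good
  have key : ∀ (x : Fin r → Fin N), StrictMono x → (∀ i, x i ∈ S) → ∀ j,
      (x ∈ R j ↔ ∀ e : Fin (u + 1) ↪o Fin r, L (fun a => (x (e a) : ℕ)) j e = true) := by
    intro x hx hxS j
    constructor
    · intro h e
      rw [hL]
      exact decide_eq_true ⟨x, h, fun a => rfl⟩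
    · intro h
      obtain ⟨f, hf, hfR⟩ := hR j
      obtain ⟨t, htR, ht⟩ := baker_pixley (d := u + 1) (R j) f hf hfR x (by
        intro D hD
        obtain ⟨D', hDD', hD'c⟩ := Finset.exists_superset_card_eq hD (by
          rw [Fintype.card_fin]; exact hu)
        have h1 := h (D'.orderEmbOfFin hD'c)
        rw [hL] at h1
        obtain ⟨t, htR, ht⟩ := of_decide_eq_true h1
        refine ⟨t, htR, fun i hi => ?_⟩
        have h2 : i ∈ Set.range (D'.orderEmbOfFin hD'c) := by
          rw [Finset.range_orderEmbOfFin]; exact_mod_cast hDD' hi
        obtain ⟨a, ha⟩ := h2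
        have h3 : ((t (D'.orderEmbOfFin hD'c a) : Fin N) : ℕ) =
            ((x (D'.orderEmbOfFin hD'c a) : Fin N) : ℕ) := ht a
        rw [ha] at h3
        exact Fin.ext h3) Finset.univ
      have : t = x := funext fun i => ht i (Finset.mem_univ i)
      rw [← this]; exact htR
  intro x y hx hy hxS hyS j
  rw [key x hx hxS j, key y hy hyS j]
  refine forall_congr' fun e => ?_
  have h1 := hS0h (fun a => (x (e a) : ℕ)) (fun a => (y (e a) : ℕ))
    (fun a b hab => hx (e.strictMono hab)) (fun a b hab => hy (e.strictMono hab))
    (fun a => (Finset.mem_filter.1 (hxS _)).2) (fun a => (Finset.mem_filter.1 (hyS _)).2)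
  rw [h1]

/-! ### Mal'cev operations -/

theorem rect {V : Type} {r : ℕ} (R : Set (Fin r → V)) (f : (Fin 3 → V) → V)
    (hf : IsMalcev f) (hR : Preserves f R) (i : Fin r) (x y : Fin r → V) (a b : V)
    (h1 : Function.update x i a ∈ R) (h2 : Function.update x i b ∈ R)
    (h3 : Function.update y i a ∈ R) : Function.update y i b ∈ R := by
  have h4 := hR ![Function.update x i b, Function.update x i a, Function.update y i a] (by
    intro c
    fin_cases c
    · exact h2
    · exact h1
    · exact h3)
  have h5 : (fun i_1 => f (fun c => (![Function.update x i b, Function.update x i a,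
      Function.update y i a] : Fin 3 → (Fin r → V)) c i_1)) = Function.update y i b := by
    funext k
    have e1 : (fun c => (![Function.update x i b, Function.update x i a,
        Function.update y i a] : Fin 3 → (Fin r → V)) c k) =
        ![Function.update x i b k, Function.update x i a k, Function.update y i a k] := by
      funext c
      fin_cases c <;> rfl
    rw [e1]
    by_cases hk : k = i
    · subst hk
      rw [Function.update_self, Function.update_self, Function.update_self, Function.update_self]
      exact (hf b a).1
    · rw [Function.update_of_ne hk, Function.update_of_ne hk, Function.update_of_ne hk,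
        Function.update_of_ne hk]
      exact (hf (y k) (x k)).2
  rw [← h5]
  exact h4

/-- The bound of the induction. -/
def B (n : ℕ) : ℕ → ℕ
  | 0 => n
  | j + 1 => n + (j + 1) * n ^ j * B n j

theorem B_le (n : ℕ) (hn : 1 ≤ n) : ∀ j, B n j ≤ 2 ^ j * j.factorial * n ^ (1 + j * (j - 1) / 2) := by
  intro j
  induction j with
  | zero => simp [B]
  | succ j ih =>
    change n + (j + 1) * n ^ j * B n j ≤ _
    have h1 : (j + 1) * (j + 1 - 1) / 2 = j * (j - 1) / 2 + j := by
      have h2 : (j + 1) * (j + 1 - 1) = j * (j - 1) + 2 * j := by
        cases j with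
        | zero => rfl
        | succ j => simp; ring
      rw [h2, Nat.add_mul_div_left _ _ (by norm_num)]
    rw [h1]
    have h3 : n ≤ (j + 1) * n ^ j * (2 ^ j * j.factorial * n ^ (1 + j * (j - 1) / 2)) := by
      have h4 : 1 ≤ (j + 1) * n ^ j * (2 ^ j * j.factorial * n ^ (j * (j - 1) / 2)) := by
        have := Nat.factorial_pos j
        have h5 : 1 ≤ n ^ j := Nat.one_le_pow _ _ hn
        have h6 : 1 ≤ n ^ (j * (j - 1) / 2) := Nat.one_le_pow _ _ hn
        have h7 : 1 ≤ 2 ^ j := Nat.one_le_two_pow
        exact Nat.mul_pos (Nat.mul_pos (by omega) h5) (Nat.mul_pos (Nat.mul_pos h7 this) h6)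
      calc n = n * 1 := (mul_one n).symm
        _ ≤ n * ((j + 1) * n ^ j * (2 ^ j * j.factorial * n ^ (j * (j - 1) / 2))) :=
            Nat.mul_le_mul_left _ h4
        _ = _ := by rw [pow_add]; ring
    calc n + (j + 1) * n ^ j * B n j
        ≤ (j + 1) * n ^ j * (2 ^ j * j.factorial * n ^ (1 + j * (j - 1) / 2)) +
          (j + 1) * n ^ j * (2 ^ j * j.factorial * n ^ (1 + j * (j - 1) / 2)) :=
          Nat.add_le_add h3 (Nat.mul_le_mul_left _ ih)
      _ = 2 ^ (j + 1) * (j + 1).factorial * n ^ (1 + (j * (j - 1) / 2 + j)) := by
          rw [Nat.factorial_succ, pow_succ, show 1 + (j * (j - 1) / 2 + j) =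
            (1 + j * (j - 1) / 2) + j by ring, pow_add n _ j]
          ring

theorem malcev_aux {N r : ℕ} (R : Set (Fin r → Fin N)) (f : (Fin 3 → Fin N) → Fin N)
    (hf : IsMalcev f) (hR : Preserves f R) (n : ℕ) : ∀ (J : Finset (Fin r)) (A : Finset (Fin N)),
    B n J.card ≤ A.card →
    (∀ x y : Fin r → Fin N, (∀ i, x i ∈ A) → (∀ i, y i ∈ A) → (∀ i ∈ J, x i = y i) →
      (x ∈ R ↔ y ∈ R)) →
    ∃ S ⊆ A, S.card = n ∧
      ((∀ x : Fin r → Fin N, StrictMono x → (∀ i, x i ∈ S) → x ∈ R) ∨
       (∀ x : Fin r → Fin N, StrictMono x → (∀ i, x i ∈ S) → x ∉ R)) := by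
  classical
  intro J
  induction hJ : J.card generalizing J with
  | zero =>
    intro A hA hind
    obtain ⟨S, hSA, hSc⟩ := Finset.exists_subset_card_eq hA
    refine ⟨S, hSA, hSc, ?_⟩
    by_cases h : ∃ x : Fin r → Fin N, (∀ i, x i ∈ A) ∧ x ∈ R
    · obtain ⟨x, hxA, hxR⟩ := h
      left
      intro y _ hy
      refine (hind x y hxA (fun i => hSA (hy i)) ?_).1 hxR
      intro i hi
      rw [Finset.card_eq_zero.1 hJ] at hi
      exact absurd hi (Finset.notMem_empty _)
    · push Not at h
      right
      intro y _ hy
      exact h y (fun i => hSA (hy i))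
  | succ j ih =>
    intro A hA hind
    by_cases hbig : ∃ i ∈ J, ∃ C ⊆ A, B n j ≤ C.card ∧ ∀ v ∈ C, ∀ w ∈ C, ∀ x : Fin r → Fin N,
        (∀ k, x k ∈ A) → (Function.update x i v ∈ R ↔ Function.update x i w ∈ R)
    · obtain ⟨i, hiJ, C, hCA, hCc, hC⟩ := hbig
      obtain ⟨S, hSC, hSc, hSh⟩ := ih (J.erase i) (by rw [Finset.card_erase_of_mem hiJ]; omega) C hCc
        (by
          intro x y hx hy hxy
          have h1 := hC (x i) (hx i) (y i) (hy i) x (fun k => hCA (hx k))
          rw [Function.update_eq_self] at h1
          rw [h1]
          refine hind _ y ?_ (fun k => hCA (hy k)) ?_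
          · intro k
            by_cases hk : k = i
            · subst hk; rw [Function.update_self]; exact hCA (hy k)
            · rw [Function.update_of_ne hk]; exact hCA (hx k)
          · intro k hk
            by_cases hki : k = i
            · subst hki; rw [Function.update_self]
            · rw [Function.update_of_ne hki]
              exact hxy k (Finset.mem_erase.2 ⟨hki, hk⟩))
      exact ⟨S, hSC.trans hCA, hSc, hSh⟩
    · push Not at hbig
      -- greedy choice
      have hAne : ∀ s, s < n → A.Nonempty := by
        intro s hs
        rw [← Finset.card_pos]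
        have : n ≤ B n (j + 1) := by
          change n ≤ n + _
          omega
        omega
      have hgreedy : ∀ s ≤ n, ∃ S ⊆ A, S.card = s ∧ ∀ x : Fin r → Fin N, (∀ i, x i ∈ A) →
          (∀ i ∈ J, x i ∈ S) → (∀ i ∈ J, ∀ k ∈ J, i < k → x i < x k) → x ∉ R := by
        intro s
        induction s with
        | zero =>
          intro _
          refine ⟨∅, Finset.empty_subset _, rfl, fun x _ hx _ => ?_⟩
          obtain ⟨i, hi⟩ : J.Nonempty := by rw [← Finset.card_pos]; omega
          exact absurd (hx i hi) (Finset.notMem_empty _)
        | succ s ihs =>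
          intro hs
          obtain ⟨S, hSA, hSc, hSgood⟩ := ihs (by omega)
          obtain ⟨a0, ha0⟩ := hAne s (by omega)
          -- the forbidden points
          set T : Finset ((i : Fin r) × ((Fin r) → Fin N)) :=
            J.sigma (fun i => (Fintype.piFinset (fun k => if k ∈ J.erase i then S else {a0})))
            with hT
          have hTc : T.card ≤ (j + 1) * n ^ j := by
            rw [hT, Finset.card_sigma]
            calc ∑ i ∈ J, (Fintype.piFinset (fun k => if k ∈ J.erase i then S else {a0})).card
                ≤ ∑ _i ∈ J, n ^ j := by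
                  refine Finset.sum_le_sum fun i hi => ?_
                  rw [Fintype.card_piFinset]
                  have h1 : ∀ k, (if k ∈ J.erase i then S else ({a0} : Finset (Fin N))).card =
                      if k ∈ J.erase i then s else 1 := by
                    intro k
                    split_ifs
                    · exact hSc
                    · exact Finset.card_singleton _
                  simp only [h1]
                  rw [Finset.prod_ite, Finset.prod_const, Finset.prod_const_one, mul_one]
                  have h2 : (Finset.univ.filter (fun k => k ∈ J.erase i)).card = j := by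
                    rw [Finset.filter_mem_eq_inter, Finset.univ_inter,
                      Finset.card_erase_of_mem hi]
                    omega
                  rw [h2]
                  exact Nat.pow_le_pow_left (by omega) _
              _ = (j + 1) * n ^ j := by rw [Finset.sum_const, hJ, smul_eq_mul]
          set F : Finset (Fin N) := T.biUnion (fun p => A.filter (fun v =>
            Function.update p.2 p.1 v ∈ R)) with hF
          have hTmem : ∀ p ∈ T, p.1 ∈ J ∧ ∀ k, p.2 k ∈ A := by
            intro p hp
            rw [hT, Finset.mem_sigma, Fintype.mem_piFinset] at hp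
            refine ⟨hp.1, fun k => ?_⟩
            have h1 := hp.2 k
            split_ifs at h1
            · exact hSA h1
            · rw [Finset.mem_singleton.1 h1]; exact ha0
          have hclass : ∀ p ∈ T, (A.filter (fun v => Function.update p.2 p.1 v ∈ R)).card ≤
              B n j := by
            intro p hp
            obtain ⟨hpJ, hpA⟩ := hTmem p hp
            by_contra hcon
            push Not at hcon
            obtain ⟨v, hv, w, hw, x, hx, hbad⟩ := hbig p.1 hpJ
              (A.filter (fun v => Function.update p.2 p.1 v ∈ R)) (Finset.filter_subset _ _) hcon.le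
            have hv1 := (Finset.mem_filter.1 hv).2
            have hw1 := (Finset.mem_filter.1 hw).2
            rcases hbad with ⟨h1, h2⟩ | ⟨h1, h2⟩
            · exact h2 (rect R f hf hR p.1 p.2 x v w hv1 hw1 h1)
            · exact h1 (rect R f hf hR p.1 p.2 x w v hw1 hv1 h2)
          have hFc : F.card ≤ (j + 1) * n ^ j * B n j := by
            rw [hF]
            refine (Finset.card_biUnion_le).trans ?_
            refine (Finset.sum_le_sum hclass).trans ?_
            rw [Finset.sum_const, smul_eq_mul]
            exact Nat.mul_le_mul_right _ hTc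
          have hlt : (S ∪ F).card < A.card := by
            refine lt_of_le_of_lt (Finset.card_union_le _ _) ?_
            have h1 : n + (j + 1) * n ^ j * B n j ≤ A.card := hA
            omega
          obtain ⟨v, hvA, hvSF⟩ := Finset.exists_mem_notMem_of_card_lt_card hlt
          rw [Finset.mem_union, not_or] at hvSF
          refine ⟨insert v S, Finset.insert_subset hvA hSA, ?_, ?_⟩
          · rw [Finset.card_insert_of_notMem hvSF.1, hSc]
          · intro x hxA hxS hxm hxR
            by_cases hx : ∃ i ∈ J, x i = v
            · obtain ⟨i, hiJ, hiv⟩ := hx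
              have hothers : ∀ k ∈ J, k ≠ i → x k ∈ S := by
                intro k hk hki
                have h1 := hxS k hk
                rw [Finset.mem_insert] at h1
                rcases h1 with h1 | h1
                · exfalso
                  rcases lt_trichotomy k i with h2 | h2 | h2
                  · have := hxm k hk i hiJ h2
                    rw [h1, hiv] at this
                    exact lt_irrefl _ this
                  · exact hki h2
                  · have := hxm i hiJ k hk h2
                    rw [h1, hiv] at this
                    exact lt_irrefl _ this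
                · exact h1
              set y : Fin r → Fin N := fun k => if k ∈ J.erase i then x k else a0 with hy
              have hyT : (⟨i, y⟩ : (_ : Fin r) × (Fin r → Fin N)) ∈ T := by
                rw [hT, Finset.mem_sigma, Fintype.mem_piFinset]
                refine ⟨hiJ, fun k => ?_⟩
                change (if k ∈ J.erase i then x k else a0) ∈ _
                split_ifs with h1
                · exact hothers k (Finset.mem_of_mem_erase h1) (Finset.ne_of_mem_erase h1)
                · exact Finset.mem_singleton_self _
              apply hvSF.2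
              rw [hF, Finset.mem_biUnion]
              refine ⟨⟨i, y⟩, hyT, Finset.mem_filter.2 ⟨hvA, ?_⟩⟩
              change Function.update y i v ∈ R
              refine (hind x _ hxA ?_ ?_).1 hxR
              · intro k
                by_cases hk : k = i
                · subst hk; rw [Function.update_self]; exact hvA
                · rw [Function.update_of_ne hk]
                  exact (hTmem _ hyT).2 k
              · intro k hk
                by_cases hki : k = i
                · subst hki; rw [Function.update_self]; exact hiv
                · rw [Function.update_of_ne hki]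
                  change x k = if k ∈ J.erase i then x k else a0
                  rw [if_pos (Finset.mem_erase.2 ⟨hki, hk⟩)]
            · push Not at hx
              refine hSgood x hxA ?_ hxm hxR
              intro i hi
              exact Finset.mem_of_mem_insert_of_ne (hxS i hi) (hx i hi)
      obtain ⟨S, hSA, hSc, hSgood⟩ := hgreedy n le_rfl
      refine ⟨S, hSA, hSc, Or.inr fun x hx hxS => ?_⟩
      exact hSgood x (fun i => hSA (hxS i)) (fun i _ => hxS i) (fun i _ k _ hik => hx hik)

end Pool.Agent.X27.Poly
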