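import Mathlib
import Pool.Agent.X27.Poly.Alg

set_option autoImplicit false

/-!
Lower bounds: relations preserved by near unanimity or semilattice operations without large
homogeneous sets.
-/

namespace Pool.Agent.X27.Poly

open Finset

variable {N d r : ℕ}

/-- The relation made from a colouring of the increasing `d`-tuples. -/
def relR (hd : d ≤ r) (G : Set (Fin d → Fin N)) : Set (Fin r → Fin (N + 1)) :=
  {x | (∃ i : Fin d, x (Fin.castLE hd i) = Fin.last N) ∨
    ∃ y ∈ G, ∀ i : Fin d, x (Fin.castLE hd i) = (y i).castSucc}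

theorem relR_nu (hd : d ≤ r) (hd2 : 2 ≤ d) (G : Set (Fin d → Fin N)) :
    ∃ f : (Fin (d + 1) → Fin (N + 1)) → Fin (N + 1), IsNU f ∧ Preserves f (relR hd G) := by
  classical
  set f : (Fin (d + 1) → Fin (N + 1)) → Fin (N + 1) := fun t =>
    if h : ∃ v, ∃ a, ∀ b, b ≠ a → t b = v then Classical.choose h else Fin.last N with hf
  have huniq : ∀ (t : Fin (d + 1) → Fin (N + 1)) v a, (∀ b, b ≠ a → t b = v) → f t = v := by
    intro t v a h
    have hex : ∃ v, ∃ a, ∀ b, b ≠ a → t b = v := ⟨v, a, h⟩
    have h1 : f t = Classical.choose hex := by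
      rw [hf]; exact dif_pos hex
    obtain ⟨a', h2⟩ := Classical.choose_spec hex
    have h3 : ∃ b : Fin (d + 1), b ≠ a ∧ b ≠ a' := by
      have hc : ({a, a'} : Finset (Fin (d + 1))).card < (Finset.univ : Finset (Fin (d + 1))).card := by
        rw [Finset.card_univ, Fintype.card_fin]
        refine lt_of_le_of_lt (Finset.card_le_two) (by omega)
      obtain ⟨b, _, hb⟩ := Finset.exists_mem_notMem_of_card_lt_card hc
      simp only [Finset.mem_insert, Finset.mem_singleton, not_or] at hb
      exact ⟨b, hb.1, hb.2⟩
    obtain ⟨b, hb1, hb2⟩ := h3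
    rw [h1, ← h2 b hb2, h b hb1]
  refine ⟨f, ?_, ?_⟩
  · intro a x y
    exact huniq _ x a (fun b hb => Function.update_of_ne hb _ _)
  · intro t ht
    by_cases hlast : ∃ i : Fin d, f (fun a => t a (Fin.castLE hd i)) = Fin.last N
    · exact Or.inl hlast
    · push Not at hlast
      have hex : ∀ i : Fin d, ∃ a, ∀ b, b ≠ a → t b (Fin.castLE hd i) =
          f (fun a => t a (Fin.castLE hd i)) := by
        intro i
        by_cases h : ∃ v, ∃ a, ∀ b, b ≠ a → t b (Fin.castLE hd i) = v
        · obtain ⟨v, a, h1⟩ := h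
          refine ⟨a, fun b hb => ?_⟩
          rw [huniq (fun a => t a (Fin.castLE hd i)) v a h1]
          exact h1 b hb
        · exfalso
          apply hlast i
          rw [hf]
          exact dif_neg h
      choose a ha using hex
      have hb : ∃ b : Fin (d + 1), ∀ i, b ≠ a i := by
        have hc : (Finset.univ.image a).card < (Finset.univ : Finset (Fin (d + 1))).card := by
          refine lt_of_le_of_lt Finset.card_image_le ?_
          rw [Finset.card_univ, Finset.card_univ, Fintype.card_fin, Fintype.card_fin]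
          omega
        obtain ⟨b, _, hb⟩ := Finset.exists_mem_notMem_of_card_lt_card hc
        refine ⟨b, fun i h => hb ?_⟩
        rw [Finset.mem_image]
        exact ⟨i, Finset.mem_univ _, h.symm⟩
      obtain ⟨b, hb⟩ := hb
      rcases ht b with h | h
      · obtain ⟨i, hi⟩ := h
        exfalso
        apply hlast i
        rw [← ha i b (hb i)]; exact hi
      · obtain ⟨y, hy, hy2⟩ := h
        refine Or.inr ⟨y, hy, fun i => ?_⟩
        change f (fun a => t a (Fin.castLE hd i)) = _
        rw [← ha i b (hb i)]
        exact hy2 i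

theorem relR_semilattice (G : Set (Fin r → Fin N)) :
    ∃ f : (Fin 2 → Fin (N + 1)) → Fin (N + 1), IsSemilattice f ∧ Preserves f (relR le_rfl G) := by
  classical
  set f : (Fin 2 → Fin (N + 1)) → Fin (N + 1) := fun t =>
    if t 0 = t 1 then t 0 else Fin.last N with hf
  have hf2 : ∀ x y, f ![x, y] = if x = y then x else Fin.last N := fun x y => rfl
  refine ⟨f, ⟨?_, ?_, ?_⟩, ?_⟩
  · intro x
    rw [hf2, if_pos rfl]
  · intro x y
    rw [hf2, hf2]
    by_cases h : x = y
    · subst h; rfl
    · rw [if_neg h, if_neg (fun h' => h h'.symm)]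
  · intro x y z
    rw [hf2, hf2, hf2, hf2]
    by_cases h1 : x = y
    · subst h1
      rw [if_pos rfl]
      by_cases h2 : x = z
      · subst h2; rw [if_pos rfl, if_pos rfl]
      · rw [if_neg h2]
        by_cases h3 : x = Fin.last N
        · rw [if_pos h3, h3]
        · rw [if_neg h3]
    · rw [if_neg h1]
      by_cases h2 : y = z
      · subst h2
        rw [if_pos rfl, if_neg h1]
        by_cases h3 : Fin.last N = y
        · rw [if_pos h3]
        · rw [if_neg h3]
      · rw [if_neg h2]
        have e1 : (if Fin.last N = z then Fin.last N else Fin.last N) = Fin.last N := by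
          split_ifs <;> rfl
        rw [e1]
        by_cases h3 : x = Fin.last N
        · rw [if_pos h3, h3]
        · rw [if_neg h3]
  · intro t ht
    have hft : ∀ i, f (fun a => t a i) = if t 0 i = t 1 i then t 0 i else Fin.last N := fun i => rfl
    by_cases hlast : ∃ i : Fin r, f (fun a => t a i) = Fin.last N
    · obtain ⟨i, hi⟩ := hlast
      exact Or.inl ⟨i, hi⟩
    · push Not at hlast
      have h1 : ∀ i, t 0 i = t 1 i := by
        intro i
        by_contra h
        apply hlast i
        rw [hft, if_neg h]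
      have h2 : (fun i => f (fun a => t a i)) = t 0 := by
        funext i
        rw [hft, if_pos (h1 i)]
      rw [h2]
      exact ht 0

/-- Homogeneous sets for one relation. -/
def Hom1 {N r : ℕ} (R : Set (Fin r → Fin N)) (S : Finset (Fin N)) : Prop :=
  ∀ x y : Fin r → Fin N, StrictMono x → StrictMono y → (∀ i, x i ∈ S) → (∀ i, y i ∈ S) →
    (x ∈ R ↔ y ∈ R)

theorem relR_hom (hd : d ≤ r) (G : Set (Fin d → Fin N)) (n : ℕ)
    (hG : ∀ S : Finset (Fin N), S.card = n → ¬ Hom1 G S) :
    ∀ T : Finset (Fin (N + 1)), T.card = n + (r - d) + 1 → ¬ Hom1 (relR hd G) T := by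
  classical
  intro T hTc hT
  set T' := T.erase (Fin.last N) with hT'
  have hT'c : n + (r - d) ≤ T'.card := by
    have := Finset.pred_card_le_card_erase (s := T) (a := Fin.last N)
    rw [← hT'] at this
    omega
  set m := T'.card with hm
  set e := T'.orderEmbOfFin hm.symm with he
  have heT : ∀ a, e a ∈ T := fun a => Finset.mem_of_mem_erase (Finset.orderEmbOfFin_mem T' hm.symm a)
  have helast : ∀ a, e a ≠ Fin.last N := fun a =>
    Finset.ne_of_mem_erase (Finset.orderEmbOfFin_mem T' hm.symm a)
  set g : Fin n → Fin N := fun a => (e ⟨a, by omega⟩).castPred (helast _) with hg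
  have hgc : ∀ a : Fin n, (g a).castSucc = e ⟨a, by omega⟩ := fun a => by
    rw [hg]; exact Fin.castSucc_castPred _ _
  have hgm : StrictMono g := by
    intro a b hab
    have h1 : (g a).castSucc < (g b).castSucc := by
      rw [hgc, hgc]
      exact e.strictMono (by exact hab)
    exact_mod_cast h1
  set S : Finset (Fin N) := Finset.univ.image g with hS
  have hSc : S.card = n := by
    rw [hS, Finset.card_image_of_injective _ hgm.injective, Finset.card_univ, Fintype.card_fin]
  apply hG S hSc
  have key : ∀ y : Fin d → Fin N, StrictMono y → (∀ i, y i ∈ S) →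
      ∃ x : Fin r → Fin (N + 1), StrictMono x ∧ (∀ i, x i ∈ T) ∧ (x ∈ relR hd G ↔ y ∈ G) := by
    intro y hy hyS
    have hch : ∀ i, ∃ a, g a = y i := fun i => by
      obtain ⟨a, _, ha⟩ := Finset.mem_image.1 (hyS i)
      exact ⟨a, ha⟩
    choose a ha using hch
    set x : Fin r → Fin (N + 1) := fun i =>
      if h : (i : ℕ) < d then (y ⟨i, h⟩).castSucc else e ⟨n + (i - d), by
        have := i.2
        omega⟩ with hx
    have hx1 : ∀ i : Fin r, ∀ h : (i : ℕ) < d, x i = (y ⟨i, h⟩).castSucc := fun i h => by
      rw [hx]; exact dif_pos h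
    have hx2 : ∀ i : Fin r, ∀ h : ¬ (i : ℕ) < d, x i = e ⟨n + (i - d), by
        have := i.2
        omega⟩ := fun i h => by
      rw [hx]; exact dif_neg h
    have hcast : ∀ i : Fin d, x (Fin.castLE hd i) = (y i).castSucc := fun i => by
      rw [hx1 (Fin.castLE hd i) i.2]
      rfl
    refine ⟨x, ?_, ?_, ?_⟩
    · intro i k hik
      by_cases h2 : (k : ℕ) < d
      · have h1 : (i : ℕ) < d := lt_trans hik h2
        rw [hx1 i h1, hx1 k h2, Fin.castSucc_lt_castSucc_iff]
        exact hy hik
      · by_cases h1 : (i : ℕ) < d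
        · rw [hx1 i h1, hx2 k h2, ← ha, hgc]
          apply e.strictMono
          rw [Fin.mk_lt_mk]
          have := (a ⟨i, h1⟩).2
          omega
        · rw [hx2 i h1, hx2 k h2]
          apply e.strictMono
          rw [Fin.mk_lt_mk]
          have : (i : ℕ) < k := hik
          omega
    · intro i
      by_cases h1 : (i : ℕ) < d
      · rw [hx1 i h1, ← ha, hgc]; exact heT _
      · rw [hx2 i h1]; exact heT _
    · constructor
      · rintro (⟨i, hi⟩ | ⟨z, hz, hz2⟩)
        · rw [hcast] at hi
          exact absurd hi (Fin.castSucc_ne_last _)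
        · have : y = z := by
            funext i
            have h1 := hz2 i
            rw [hcast] at h1
            exact Fin.castSucc_injective _ h1
          rw [this]; exact hz
      · intro h
        exact Or.inr ⟨y, h, hcast⟩
  intro y z hy hz hyS hzS
  obtain ⟨x, hx1, hx2, hx3⟩ := key y hy hyS
  obtain ⟨x', hx1', hx2', hx3'⟩ := key z hz hzS
  rw [← hx3, ← hx3']
  exact hT x x' hx1 hx1' hx2 hx2'

end Pool.Agent.X27.Poly
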